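import Pool.Agent.Y192.OG.StE

/-!
Homogeneous ideals of Laurent polynomials and independence of monomials (helper809).
-/

set_option autoImplicit false
set_option linter.unusedSectionVars false

namespace Pool.Agent.Y809.OG

open Pool.Agent.Y192.OG

/-- Laurent polynomials -/
abbrev La (N : ℕ) : Type := AddMonoidAlgebra ℂ (Fin N → ℤ)

variable {N : ℕ}

open Classical in
theorem comp_coeff (Γ : Submodule ℤ (Fin N → ℤ)) (q : (Fin N → ℤ) ⧸ Γ) (g : La N)
    (m : Fin N → ℤ) : (comp Γ q g).coeff m = if Γ.mkQ m = q then g.coeff m else 0 := by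
  unfold comp
  rw [AddMonoidAlgebra.coeff_ofCoeff, Finsupp.filter_apply]

/-- components as an additive map -/
noncomputable def compHom (Γ : Submodule ℤ (Fin N → ℤ)) (q : (Fin N → ℤ) ⧸ Γ) : La N →+ La N where
  toFun := comp Γ q
  map_zero' := by
    apply AddMonoidAlgebra.coeff_injective
    ext m
    rw [comp_coeff]
    split_ifs <;> rfl
  map_add' g h := by
    apply AddMonoidAlgebra.coeff_injective
    ext m
    rw [comp_coeff, AddMonoidAlgebra.coeff_add, AddMonoidAlgebra.coeff_add, Finsupp.add_apply,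
      Finsupp.add_apply, comp_coeff, comp_coeff]
    split_ifs
    · rfl
    · rw [add_zero]

theorem compHom_apply (Γ : Submodule ℤ (Fin N → ℤ)) (q : (Fin N → ℤ) ⧸ Γ) (g : La N) :
    compHom Γ q g = comp Γ q g := rfl

/-- Laurent polynomials with exponents in `Γ` -/
noncomputable def sg (Γ : Submodule ℤ (Fin N → ℤ)) : Subalgebra ℂ (La N) :=
  Algebra.adjoin ℂ {g | ∃ γ ∈ Γ, g = AddMonoidAlgebra.single γ 1}

theorem single_mem_sg {Γ : Submodule ℤ (Fin N → ℤ)} {γ : Fin N → ℤ} (hγ : γ ∈ Γ) :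
    (AddMonoidAlgebra.single γ 1 : La N) ∈ sg Γ :=
  Algebra.subset_adjoin ⟨γ, hγ, rfl⟩

theorem comp_mul {Γ : Submodule ℤ (Fin N → ℤ)} {D : La N} (hD : D ∈ sg Γ) :
    ∀ (q : (Fin N → ℤ) ⧸ Γ) (f : La N), comp Γ q (D * f) = D * comp Γ q f := by
  classical
  unfold sg at hD
  induction hD using Algebra.adjoin_induction with
  | mem D hD =>
    obtain ⟨γ, hγ, rfl⟩ := hD
    intro q f
    apply AddMonoidAlgebra.coeff_injective
    ext m
    have h1 : ∀ g : La N, ((AddMonoidAlgebra.single γ 1 : La N) * g).coeff m =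
        1 * g.coeff (m - γ) := by
      intro g
      refine AddMonoidAlgebra.coeff_single_mul_eq_mul_coeff (m - γ) (fun m' _ => ?_)
      constructor
      · intro h
        rw [← h]
        abel
      · intro h
        rw [h]
        abel
    rw [comp_coeff, h1, h1, comp_coeff]
    have h2 : Γ.mkQ (m - γ) = Γ.mkQ m := by
      rw [map_sub, sub_eq_self]
      exact (Submodule.Quotient.mk_eq_zero Γ).2 hγ
    rw [h2]
    split_ifs <;> simp
  | algebraMap r =>
    intro q f
    apply AddMonoidAlgebra.coeff_injective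
    ext m
    rw [← Algebra.smul_def, ← Algebra.smul_def, comp_coeff]
    change (if _ then (r • f.coeff) m else 0) = (r • (comp Γ q f).coeff) m
    rw [Finsupp.smul_apply, Finsupp.smul_apply, comp_coeff]
    split_ifs
    · rfl
    · rw [smul_zero]
  | add D E _ _ hD hE =>
    intro q f
    rw [add_mul, ← compHom_apply, map_add, compHom_apply, compHom_apply, hD, hE, add_mul]
  | mul D E _ _ hD hE =>
    intro q f
    rw [mul_assoc, hD, hE, mul_assoc]

open Classical in
theorem comp_single (Γ : Submodule ℤ (Fin N → ℤ)) (q : (Fin N → ℤ) ⧸ Γ) (t : Fin N → ℤ) :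
    comp Γ q (AddMonoidAlgebra.single t 1) =
      if Γ.mkQ t = q then AddMonoidAlgebra.single t 1 else 0 := by
  apply AddMonoidAlgebra.coeff_injective
  ext m
  rw [comp_coeff]
  by_cases hm : m = t
  · subst hm
    split_ifs
    · rfl
    · rfl
  · have h0 : (AddMonoidAlgebra.single t 1 : La N).coeff m = 0 := by
      rw [AddMonoidAlgebra.coeff_single, Finsupp.single_apply, if_neg (Ne.symm hm)]
    rw [h0]
    split_ifs
    · exact h0.symm
    · rfl
    · exact h0.symm
    · rfl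

variable {K : Type} [Field K] [Algebra ℂ K]

/-- elements of `F0` are quotients of values -/
theorem frac (x : Fin N → Kˣ) (Γ : Submodule ℤ (Fin N → ℤ)) {z : K} (hz : z ∈ F0 x Γ) :
    ∃ n d : La N, n ∈ sg Γ ∧ d ∈ sg Γ ∧ ep x d ≠ 0 ∧ z * ep x d = ep x n := by
  unfold F0 at hz
  induction hz using IntermediateField.adjoin_induction with
  | mem z hz =>
    obtain ⟨γ, hγ, rfl⟩ := hz
    refine ⟨AddMonoidAlgebra.single γ 1, 1, single_mem_sg hγ, one_mem _, ?_, ?_⟩
    · rw [map_one]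
      exact one_ne_zero
    · rw [map_one, mul_one, ep_single, one_smul]
  | algebraMap r =>
    refine ⟨algebraMap ℂ (La N) r, 1, algebraMap_mem _ r, one_mem _, ?_, ?_⟩
    · rw [map_one]
      exact one_ne_zero
    · rw [map_one, mul_one, AlgHom.commutes]
  | add z w _ _ hz hw =>
    obtain ⟨n, d, hn, hd, hd0, h⟩ := hz
    obtain ⟨n', d', hn', hd', hd0', h'⟩ := hw
    refine ⟨n * d' + n' * d, d * d', add_mem (mul_mem hn hd') (mul_mem hn' hd), mul_mem hd hd', ?_,
      ?_⟩
    · rw [map_mul]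
      exact mul_ne_zero hd0 hd0'
    · rw [map_mul, map_add, map_mul, map_mul, ← h, ← h']
      ring
  | inv z _ hz =>
    obtain ⟨n, d, hn, hd, hd0, h⟩ := hz
    by_cases h0 : z = 0
    · refine ⟨0, 1, zero_mem _, one_mem _, ?_, ?_⟩
      · rw [map_one]
        exact one_ne_zero
      · rw [h0, inv_zero, zero_mul, map_zero]
    · refine ⟨d, n, hd, hn, ?_, ?_⟩
      · rw [← h]
        exact mul_ne_zero h0 hd0
      · rw [← h, ← mul_assoc, inv_mul_cancel₀ h0, one_mul]
  | mul z w _ _ hz hw =>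
    obtain ⟨n, d, hn, hd, hd0, h⟩ := hz
    obtain ⟨n', d', hn', hd', hd0', h'⟩ := hw
    refine ⟨n * n', d * d', mul_mem hn hn', mul_mem hd hd', ?_, ?_⟩
    · rw [map_mul]
      exact mul_ne_zero hd0 hd0'
    · rw [map_mul, map_mul, ← h, ← h']
      ring

/-- common denominators -/
theorem common (x : Fin N → Kˣ) (Γ : Submodule ℤ (Fin N → ℤ)) {ι : Type} (C : Finset ι)
    (a : ι → F0 x Γ) : ∃ D : La N, D ∈ sg Γ ∧ ep x D ≠ 0 ∧ ∃ p : ι → La N,
      ∀ c ∈ C, p c ∈ sg Γ ∧ (a c : K) * ep x D = ep x (p c) := by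
  classical
  choose n d hn hd hd0 h using fun c => frac x Γ (a c).2
  refine ⟨∏ c ∈ C, d c, prod_mem fun c _ => hd c, ?_, fun c => n c * ∏ c' ∈ C.erase c, d c', ?_⟩
  · rw [map_prod]
    exact Finset.prod_ne_zero_iff.2 fun c _ => hd0 c
  · intro c hc
    refine ⟨mul_mem (hn c) (prod_mem fun c' _ => hd c'), ?_⟩
    rw [← Finset.mul_prod_erase C d hc, map_mul, map_mul, ← h]
    ring

/-- the combination of the vectors `bt j` with given coordinates -/
def tt {b : ℕ} (bt : Fin b → Fin N → ℤ) (v : Fin b → ℤ) : Fin N → ℤ := ∑ j, v j • bt j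

theorem co_tt {Γ : Submodule ℤ (Fin N → ℤ)} {b : ℕ} {bt : Fin b → Fin N → ℤ}
    {co : (Fin N → ℤ) →+ (Fin b → ℤ)} (hS : Splt Γ bt co) (v : Fin b → ℤ) : co (tt bt v) = v := by
  unfold tt
  rw [map_sum]
  simp only [map_zsmul, hS.bt]
  ext i
  rw [Finset.sum_apply]
  simp [Pi.single_apply]

theorem xm_sum {ι : Type} (x : Fin N → Kˣ) (s : Finset ι) (u : ι → Fin N → ℤ) :
    xm x (∑ i ∈ s, u i) = ∏ i ∈ s, xm x (u i) := by
  classical
  induction s using Finset.induction_on with
  | empty => rw [Finset.sum_empty, Finset.prod_empty, xm_zero]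
  | insert i s hi ih => rw [Finset.sum_insert hi, Finset.prod_insert hi, xm_add, ih]

theorem xm_zsmul (x : Fin N → Kˣ) (n : ℤ) (m : Fin N → ℤ) : xm x (n • m) = xm x m ^ n := by
  unfold xm
  rw [← Finset.prod_zpow]
  refine Finset.prod_congr rfl fun i _ => ?_
  rw [Pi.smul_apply, smul_eq_mul, mul_comm, zpow_mul]

theorem xm_tt {b : ℕ} (x : Fin N → Kˣ) (bt : Fin b → Fin N → ℤ) (v : Fin b → ℤ) :
    xm x (tt bt v) = ∏ j, xm x (bt j) ^ v j := by
  unfold tt
  rw [xm_sum]
  exact Finset.prod_congr rfl fun j _ => xm_zsmul x _ _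

theorem comp_key {x : Fin N → Kˣ} {Γ : Submodule ℤ (Fin N → ℤ)} {b : ℕ}
    {bt : Fin b → Fin N → ℤ} {co : (Fin N → ℤ) →+ (Fin b → ℤ)} (hS : Splt Γ bt co)
    (hI : ∀ g ∈ RingHom.ker (ep x), ∀ q, comp Γ q g ∈ RingHom.ker (ep x)) {ι : Type}
    (C : Finset ι) (e : ι → Fin b → ℤ) (he : Set.InjOn e C) (p : ι → La N)
    (hp : ∀ c ∈ C, p c ∈ sg Γ) {D : La N} (hD : D ∈ sg Γ) (f : La N)
    (hG : ep x (D * f) = ∑ c ∈ C, ep x (p c) * (xm x (tt bt (e c)) : K)) {c0 : ι} (hc0 : c0 ∈ C)
    {t : Fin N → ℤ} (ht : co t = e c0) :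
    ep x D * ep x (comp Γ (Γ.mkQ t) f) = ep x (p c0) * (xm x (tt bt (e c0)) : K) := by
  classical
  have hmem : D * f - ∑ c ∈ C, p c * AddMonoidAlgebra.single (tt bt (e c)) 1 ∈
      RingHom.ker (ep x) := by
    rw [RingHom.mem_ker, map_sub, hG, map_sum, sub_eq_zero]
    refine Finset.sum_congr rfl fun c _ => ?_
    rw [map_mul, ep_single, one_smul]
  have h1 := hI _ hmem (Γ.mkQ t)
  rw [← compHom_apply, map_sub, map_sum, compHom_apply, comp_mul hD] at h1
  have h2 : ∑ c ∈ C, compHom Γ (Γ.mkQ t) (p c * AddMonoidAlgebra.single (tt bt (e c)) 1) =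
      p c0 * AddMonoidAlgebra.single (tt bt (e c0)) 1 := by
    rw [Finset.sum_eq_single_of_mem c0 hc0]
    · rw [compHom_apply, comp_mul (hp c0 hc0), comp_single, if_pos]
      rw [← sub_eq_zero, ← map_sub]
      refine (Submodule.Quotient.mk_eq_zero Γ).2 ((hS.ker _).1 ?_)
      rw [map_sub, co_tt hS, ht, sub_self]
    · intro c hc hne
      rw [compHom_apply, comp_mul (hp c hc), comp_single, if_neg, mul_zero]
      intro h3
      rw [← sub_eq_zero, ← map_sub] at h3
      have h4 := (hS.ker _).2 ((Submodule.Quotient.mk_eq_zero Γ).1 h3)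
      rw [map_sub, co_tt hS, ht, sub_eq_zero] at h4
      exact hne (he (Finset.mem_coe.2 hc) (Finset.mem_coe.2 hc0) h4)
  rw [h2, RingHom.mem_ker, map_sub, map_mul, map_mul, ep_single, one_smul, sub_eq_zero] at h1
  exact h1

theorem aeval_eq {x : Fin N → Kˣ} {Γ : Submodule ℤ (Fin N → ℤ)} {b : ℕ}
    (bt : Fin b → Fin N → ℤ) (F : MvPolynomial (Fin b) (F0 x Γ)) :
    MvPolynomial.aeval (fun j => (xm x (bt j) : K)) F =
      ∑ c ∈ F.support, ((F.coeff c : F0 x Γ) : K) * (xm x (tt bt fun j => (c j : ℤ)) : K) := by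
  rw [MvPolynomial.aeval_def, MvPolynomial.eval₂_eq']
  refine Finset.sum_congr rfl fun c _ => ?_
  rw [xm_tt, Units.coe_prod]
  simp only [zpow_natCast, Units.val_pow_eq_pow_val]
  rfl

theorem inj_nat (b : ℕ) (s : Set (Fin b →₀ ℕ)) :
    Set.InjOn (fun (c : Fin b →₀ ℕ) (j : Fin b) => (c j : ℤ)) s := by
  intro c _ c' _ h
  ext j
  have h1 : (c j : ℤ) = (c' j : ℤ) := congrFun h j
  exact_mod_cast h1

theorem t_split : St_split := by
  intro N K _ _ x Γ b bt co hS hI
  refine ⟨?_, fun m => ?_⟩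
  · rw [algebraicIndependent_iff]
    intro P hP
    rw [aeval_eq] at hP
    by_contra hne
    obtain ⟨c0, hc0⟩ := MvPolynomial.support_nonempty.2 hne
    obtain ⟨D, hD, hD0, p, hp⟩ := common x Γ P.support fun c => P.coeff c
    have h1 := comp_key hS hI P.support (fun c j => (c j : ℤ)) (inj_nat b _) p
      (fun c hc => (hp c hc).1) hD 0 (by
        rw [mul_zero, map_zero]
        symm
        have h2 : ∑ c ∈ P.support, ep x (p c) * (xm x (tt bt fun j => (c j : ℤ)) : K) =
            (∑ c ∈ P.support, ((P.coeff c : F0 x Γ) : K) * (xm x (tt bt fun j => (c j : ℤ)) : K)) *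
              ep x D := by
          rw [Finset.sum_mul]
          refine Finset.sum_congr rfl fun c hc => ?_
          rw [← (hp c hc).2]
          ring
        rw [h2, hP, zero_mul]) hc0 (t := tt bt fun j => (c0 j : ℤ)) (co_tt hS _)
    rw [← compHom_apply, map_zero, map_zero, mul_zero, ← (hp c0 hc0).2] at h1
    have h3 : ((P.coeff c0 : F0 x Γ) : K) ≠ 0 := by
      intro h4
      exact (MvPolynomial.mem_support_iff.1 hc0) (Subtype.ext h4)
    exact mul_ne_zero (mul_ne_zero h3 hD0) (Units.ne_zero _) h1.symm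
  · set γ : Fin N → ℤ := m - tt bt (co m) with hγ
    have hγΓ : γ ∈ Γ := by
      rw [← hS.ker, hγ, map_sub, co_tt hS, sub_self]
    refine ⟨⟨(xm x γ : K), IntermediateField.subset_adjoin _ _ ⟨γ, hγΓ, rfl⟩⟩, ?_, ?_⟩
    · intro h0
      exact (xm x γ).ne_zero (congrArg Subtype.val h0)
    · have h1 : m = γ + tt bt (co m) := by
        rw [hγ]
        abel
      conv_lhs => rw [h1, xm_add, xm_tt, Units.val_mul, Units.coe_prod]
      simp only [Units.val_zpow_eq_zpow_val]

theorem t_comp : St_comp := by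
  intro N K _ _ x Γ b bt co hS hI f g F hg hf t ht hmem
  obtain ⟨c0, hc0, hct⟩ := ht
  obtain ⟨D, hD, hD0, p, hp⟩ := common x Γ F.support fun c => g * F.coeff c
  have h1 := comp_key hS hI F.support (fun c j => (c j : ℤ)) (inj_nat b _) p
    (fun c hc => (hp c hc).1) hD f (by
      rw [map_mul, hf, aeval_eq, Finset.mul_sum, Finset.mul_sum]
      refine Finset.sum_congr rfl fun c hc => ?_
      rw [← (hp c hc).2]
      push_cast
      ring) hc0 (t := t) hct
  rw [(RingHom.mem_ker).1 hmem, mul_zero, ← (hp c0 hc0).2] at h1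
  have h3 : ((g * F.coeff c0 : F0 x Γ) : K) ≠ 0 := by
    intro h4
    exact mul_ne_zero hg (MvPolynomial.mem_support_iff.1 hc0) (Subtype.ext h4)
  exact mul_ne_zero (mul_ne_zero h3 hD0) (Units.ne_zero _) h1.symm

end Pool.Agent.Y809.OG
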